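import Pool.Agent.HLA.ASY

/-!
Häggkvist's problem on avoiding sparse list assignments on `K_{n,n}`: for large `n` the optimal
constant is exactly `1/4`.

For every `β < 1/4` every `β`-sparse list assignment for `K_{n,n}` is avoidable for all large `n`.
For every `n ≥ 1` there is an unavoidable list assignment for `K_{n,n}` with all lists of size at
most `⌊n/4⌋ + 1` and every colour forbidden on at most `⌊n/4⌋ + 1` edges at every vertex.
-/

open Finset Filter Topology Pool.Agent.HLA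

namespace Pool.Agent.Results.MP_ba4857_co.ExactlyOneQuarter

/-- The optimal constant in Häggkvist's problem is `1/4` for large `n`:
every `β`-sparse assignment with `β < 1/4` is avoidable for all large `n`; for every `n ≥ 1` there
is an unavoidable assignment with bound `⌊n/4⌋ + 1`; so `betaInf = 1/4`, `thr n / n → 1/4`,
`β* ≤ 1/4`, and `β* = 1/4` unless some assignment with all counts below `n/4` is unavoidable, in
which case `β*` is the minimum of `(thr n + 1) / n`, attained at some `n`. -/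
theorem result :
    (∀ β : ℝ, β < 1 / 4 → ∃ n₀ : ℕ, ∀ n : ℕ, n₀ ≤ n → ∀ L : Fin n → Fin n → Finset (Fin n),
      Sparse β L → Avoidable L) ∧
    (∀ n : ℕ, 1 ≤ n → ∃ L : Fin n → Fin n → Finset (Fin n), Bdd (n / 4 + 1) L ∧ ¬ Avoidable L) ∧
    betaInf = 1 / 4 ∧
    Tendsto (fun n : ℕ => (thr n : ℝ) / n) atTop (𝓝 (1 / 4)) ∧
    (∀ β : ℝ, 1 / 4 < β → ∀ n : ℕ, 1 ≤ n → 1 ≤ (β - 1 / 4) * n →
      ∃ L : Fin n → Fin n → Finset (Fin n), Sparse β L ∧ ¬ Avoidable L) ∧
    (∀ n : ℕ, 9 ≤ n → ∃ L : Fin n → Fin n → Finset (Fin n), Sparse (1 / 3) L ∧ ¬ Avoidable L) ∧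
    betaStar ≤ 1 / 4 ∧
    (betaStar = 1 / 4 ↔ ∀ n m : ℕ, 4 * m < n → ∀ L : Fin n → Fin n → Finset (Fin n),
      Bdd m L → Avoidable L) ∧
    (betaStar < 1 / 4 → ∃ n : ℕ, 1 ≤ n ∧ betaStar = ((thr n : ℝ) + 1) / n ∧
      ∀ k : ℕ, 1 ≤ k → betaStar ≤ ((thr k : ℝ) + 1) / k) := by
  refine ⟨asy, unavoid, betaInf_eq asy, thr_tendsto asy,
    fun β _ n hn h => OQU.exists_sparse n hn h, OQU.exists_third, OQU.betaStar_le,
    betaStar_eq_iff, fun h => ?_⟩
  rcases betaStar_cases asy with h1 | ⟨_, n, hn, h2⟩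
  · exact absurd h1 h.ne
  · exact ⟨n, hn, h2, fun k hk => betaStar_le_xr hk⟩

end Pool.Agent.Results.MP_ba4857_co.ExactlyOneQuarter
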